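import Mathlib
import Pool.Agent.H27.Sch.Fam
import Pool.Agent.H27.Sch.Local

set_option autoImplicit false

/-!
# MP_660525_co: an upper bound for the growth of the largest principal evaluation

The variable `x_{k+1}` of the problem is `X k`; permutations of `{1, …, n}` are permutations of
`Fin n`, and `s_{i+1}` is the adjacent transposition of the positions `i` and `i + 1`.
-/

namespace Pool.Agent.Results.MP_660525_co.UpperLocal

open MvPolynomial

/-- The length of a permutation: its number of inversions. -/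
def len {n : ℕ} (w : Equiv.Perm (Fin n)) : ℕ :=
  (Finset.univ.filter fun p : Fin n × Fin n => p.1 < p.2 ∧ w p.2 < w p.1).card

/-- The adjacent transposition exchanging `i` and `i + 1`. -/
def adj {n : ℕ} (i : ℕ) (hi : i + 1 < n) : Equiv.Perm (Fin n) :=
  Equiv.swap ⟨i, Nat.lt_of_succ_lt hi⟩ ⟨i + 1, hi⟩

/-- The defining recursion of the Schubert polynomials of `S_n`: the longest element
`w_0 = Fin.revPerm` has `𝔖_{w_0} = x_1^{n-1} x_2^{n-2} ⋯ x_{n-1}`, and `𝔖_{w s} = ∂ 𝔖_w` whenever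
`ℓ(w s) < ℓ(w)`, where `s` exchanges the positions `i` and `i + 1` and
`∂ f = (f - s f) / (X i - X (i + 1))`. -/
structure IsSchubertFamily (n : ℕ) (S : Equiv.Perm (Fin n) → MvPolynomial ℕ ℤ) : Prop where
  top : S Fin.revPerm = ∏ i ∈ Finset.range n, X i ^ (n - 1 - i)
  step : ∀ (w : Equiv.Perm (Fin n)) (i : ℕ) (hi : i + 1 < n),
    len (w * adj i hi) < len w →
      (X i - X (i + 1)) * S (w * adj i hi) = S w - rename (Equiv.swap i (i + 1)) (S w)

lemma family_iff (n : ℕ) (S : Equiv.Perm (Fin n) → MvPolynomial ℕ ℤ) :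
    IsSchubertFamily n S ↔ Pool.Agent.H27.Sch.IsSchubert n S := by
  constructor
  · intro h
    refine ⟨?_, fun w i j hij hd => ?_⟩
    · rw [h.top, ← Fin.prod_univ_eq_prod_range (fun i => (X i : MvPolynomial ℕ ℤ) ^ (n - 1 - i)) n]
    · obtain ⟨i, hi⟩ := i
      obtain ⟨j, hj⟩ := j
      simp only at hij
      subst hij
      exact h.step w i hj ((Pool.Agent.H27.Sch.len_tr_lt_iff w i hj).2 hd)
  · rintro ⟨h1, h2⟩
    refine ⟨?_, fun w i hi hd => ?_⟩
    · rw [h1, ← Fin.prod_univ_eq_prod_range (fun i => (X i : MvPolynomial ℕ ℤ) ^ (n - 1 - i)) n]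
    · exact h2 w ⟨i, Nat.lt_of_succ_lt hi⟩ ⟨i + 1, hi⟩ rfl
        ((Pool.Agent.H27.Sch.len_tr_lt_iff w i hi).1 hd)

/-- There is exactly one family satisfying the defining recursion (classical). -/
theorem existsUnique_family (n : ℕ) :
    ∃! S : Equiv.Perm (Fin n) → MvPolynomial ℕ ℤ, IsSchubertFamily n S := by
  refine ⟨fun w => Pool.Agent.H27.Sch.G n (Pool.Agent.H27.Sch.ι w), ?_, ?_⟩
  · exact (family_iff n _).2 (Pool.Agent.H27.Sch.G_isSchubert n)
  · intro T hT
    exact funext fun w => Pool.Agent.H27.Sch.eq_G ((family_iff n T).1 hT) w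

/-- The Schubert polynomials `𝔖_w`, `w ∈ S_n`: the unique family satisfying the defining
recursion. -/
noncomputable def schubert (n : ℕ) : Equiv.Perm (Fin n) → MvPolynomial ℕ ℤ :=
  (existsUnique_family n).choose

/-- The principal evaluation `ν_w = 𝔖_w(1, …, 1)`. -/
noncomputable def nu (n : ℕ) (w : Equiv.Perm (Fin n)) : ℤ := eval (fun _ => 1) (schubert n w)

/-- `u(n)`, the maximum of `ν_w` over `w ∈ S_n`. -/
noncomputable def u (n : ℕ) : ℤ := Finset.univ.sup' Finset.univ_nonempty (nu n)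

lemma nu_eq (n : ℕ) (w : Equiv.Perm (Fin n)) : ((nu n w : ℤ) : ℝ) =
    Pool.Agent.H27.Sch.op (fun _ => (1 : ℝ)) 0 (Pool.Agent.H27.Sch.HL n)
      (Pool.Agent.H27.Sch.dl 1) (Pool.Agent.H27.Sch.ι w) := by
  have h1 : IsSchubertFamily n (schubert n) := (existsUnique_family n).choose_spec.1
  have h2 := Pool.Agent.H27.Sch.eq_G ((family_iff n _).1 h1) w
  have h3 := Pool.Agent.H27.Sch.op_map
    ((Int.castRingHom ℝ).comp (eval (fun _ => (1 : ℤ)))) X (0 : ℕ → MvPolynomial ℕ ℤ)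
    (Pool.Agent.H27.Sch.HL n) (Pool.Agent.H27.Sch.dl 1) (Pool.Agent.H27.Sch.ι w)
  rw [Pool.Agent.H27.Sch.comp_dl] at h3
  have e1 : ((Int.castRingHom ℝ).comp (eval (fun _ => (1 : ℤ))) : MvPolynomial ℕ ℤ →+* ℝ) ∘ X =
      fun _ => (1 : ℝ) := by
    ext i
    simp
  have e2 : ((Int.castRingHom ℝ).comp (eval (fun _ => (1 : ℤ))) : MvPolynomial ℕ ℤ →+* ℝ) ∘
      (0 : ℕ → MvPolynomial ℕ ℤ) = 0 := by
    ext i
    simp
  rw [e1, e2] at h3
  rw [← h3, nu, h2]
  rfl

lemma nu_top (n : ℕ) : nu n Fin.revPerm = 1 := by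
  have h1 : IsSchubertFamily n (schubert n) := (existsUnique_family n).choose_spec.1
  rw [nu, h1.top, map_prod]
  simp

lemma one_le_u (n : ℕ) : 1 ≤ u n := by
  rw [← nu_top n]
  exact Finset.le_sup' (nu n) (Finset.mem_univ _)

/-- the constant of the bound -/
noncomputable def K : ℝ := (1048576 : ℝ) ^ 7

lemma u_le (n : ℕ) : (u n : ℝ) ≤ K ^ (n + 1) * (16609 / 10000 : ℝ) ^ (∑ i ∈ Finset.range n, i) := by
  obtain ⟨w, -, hw⟩ := Finset.exists_mem_eq_sup' Finset.univ_nonempty (nu n)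
  rw [u, hw, nu_eq]
  refine (Pool.Agent.H27.Sch.op_le Pool.Agent.H27.Sch.pot344 n _).trans ?_
  have h : (((1048576 : ℝ) ^ (4 + 2)) ^ n) * 1048576 ^ (n + 4) ≤ K ^ (n + 1) := by
    rw [K, ← pow_mul, ← pow_mul, ← pow_add]
    exact pow_le_pow_right₀ (by norm_num) (by omega)
  calc _ = (((1048576 : ℝ) ^ (4 + 2)) ^ n) * 1048576 ^ (n + 4) *
        (16609 / 10000 : ℝ) ^ (∑ i ∈ Finset.range n, i) := by ring
    _ ≤ _ := by gcongr

lemma mu_le : (16609 / 10000 : ℝ) ≤ 2 ^ (2 * (183 / 500 : ℝ)) := by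
  have h : (16609 / 10000 : ℝ) ^ (250 : ℕ) ≤ 2 ^ (183 : ℕ) := by norm_num
  have h2 : ((2 : ℝ) ^ (2 * (183 / 500 : ℝ))) ^ (250 : ℕ) = 2 ^ (183 : ℕ) := by
    rw [← Real.rpow_natCast, ← Real.rpow_mul (by norm_num), ← Real.rpow_natCast]
    norm_num
  rw [← h2] at h
  exact le_of_pow_le_pow_left₀ (by norm_num) (by positivity) h

lemma u_le' (n : ℕ) : (u n : ℝ) ≤ K ^ (n + 1) * 2 ^ ((183 / 500 : ℝ) * (n : ℝ) ^ 2) := by
  refine (u_le n).trans ?_
  have hK : (0 : ℝ) ≤ K ^ (n + 1) := by unfold K; positivity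
  refine mul_le_mul_of_nonneg_left ?_ hK
  have hs : 2 * ((∑ i ∈ Finset.range n, i : ℕ) : ℝ) ≤ (n : ℝ) ^ 2 := by
    have h := Finset.sum_range_id_mul_two n
    have h2 : 2 * (∑ i ∈ Finset.range n, i) ≤ n ^ 2 := by
      rw [mul_comm, h, sq]
      exact Nat.mul_le_mul_left _ (Nat.sub_le _ _)
    exact_mod_cast h2
  calc (16609 / 10000 : ℝ) ^ (∑ i ∈ Finset.range n, i)
      ≤ (2 ^ (2 * (183 / 500 : ℝ))) ^ (∑ i ∈ Finset.range n, i) :=
        pow_le_pow_left₀ (by norm_num) mu_le _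
    _ = 2 ^ ((183 / 500 : ℝ) * (2 * ((∑ i ∈ Finset.range n, i : ℕ) : ℝ))) := by
        rw [← Real.rpow_natCast, ← Real.rpow_mul (by norm_num)]
        congr 1
        ring
    _ ≤ _ := by
        apply Real.rpow_le_rpow_of_exponent_le (by norm_num)
        gcongr

/-- **Upper bound for the growth of the largest principal evaluation.** There is a constant `C`
with `u(n) ≤ C^(n+1) 2^(0.366 n^2)` for all `n`, and the limes superior of `log_2 u(n) / n^2`
is at most `0.366`. -/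
theorem result :
    (∃ C : ℝ, 0 < C ∧ ∀ n : ℕ, (u n : ℝ) ≤ C ^ (n + 1) * 2 ^ ((183 / 500 : ℝ) * (n : ℝ) ^ 2)) ∧
    Filter.limsup (fun n : ℕ => Real.logb 2 (u n) / (n : ℝ) ^ 2) Filter.atTop ≤ 183 / 500 := by
  refine ⟨⟨K, by unfold K; positivity, u_le'⟩, ?_⟩
  have hK : 0 < K := by unfold K; positivity
  have hb : ∀ n : ℕ, 1 ≤ n → Real.logb 2 (u n) / (n : ℝ) ^ 2 ≤
      2 * Real.logb 2 K / (n : ℝ) + 183 / 500 := by
    intro n hn
    have hn' : (1 : ℝ) ≤ n := by exact_mod_cast hn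
    have hu : (0 : ℝ) < u n := by
      have := one_le_u n
      have h' : (1 : ℝ) ≤ u n := by exact_mod_cast this
      linarith
    have h1 : Real.logb 2 (u n) ≤ (n + 1) * Real.logb 2 K + 183 / 500 * (n : ℝ) ^ 2 := by
      have h2 := Real.logb_le_logb_of_le (b := 2) (by norm_num) hu (u_le' n)
      rw [Real.logb_mul (by positivity) (by positivity), Real.logb_pow,
        Real.logb_rpow (by norm_num) (by norm_num)] at h2
      push_cast at h2
      exact h2
    have hK1 : 0 ≤ Real.logb 2 K := by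
      apply Real.logb_nonneg (by norm_num)
      unfold K
      exact one_le_pow₀ (by norm_num)
    rw [div_le_iff₀ (by positivity)]
    have h3 : (2 * Real.logb 2 K / (n : ℝ) + 183 / 500) * (n : ℝ) ^ 2 =
        2 * n * Real.logb 2 K + 183 / 500 * (n : ℝ) ^ 2 := by
      field_simp
    rw [h3]
    nlinarith
  have hlim : Filter.Tendsto (fun n : ℕ => 2 * Real.logb 2 K / (n : ℝ) + 183 / 500) Filter.atTop
      (nhds (0 + 183 / 500)) := by
    exact (tendsto_const_div_atTop_nhds_zero_nat _).add tendsto_const_nhds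
  rw [zero_add] at hlim
  rw [← hlim.limsup_eq]
  refine Filter.limsup_le_limsup ?_ ?_ ?_
  · filter_upwards [Filter.eventually_ge_atTop 1] with n hn
    exact hb n hn
  · refine Filter.isCoboundedUnder_le_of_eventually_le (x := 0) Filter.atTop ?_
    filter_upwards with n
    have h' : (1 : ℝ) ≤ u n := by exact_mod_cast one_le_u n
    exact div_nonneg (Real.logb_nonneg (by norm_num) h') (by positivity)
  · exact hlim.isBoundedUnder_le

end Pool.Agent.Results.MP_660525_co.UpperLocal
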